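import Mathlib

/-!
# Equicontinuity on a Hartogs figure does not propagate to the polydisk

The target is the complex projective plane `ℙ²`, realised as the projectivization of `ℂ³`
(with its standard Hermitian inner product), a compact Kähler manifold.
-/

open Set Filter Topology

namespace Pool.Agent.Results.MP_7ec995_an.HartogsFigureP2

/-- Hermitian `ℂ³`. -/
abbrev C3 : Type := EuclideanSpace ℂ (Fin 3)

/-- The complex projective plane. -/
abbrev P2 : Type := Projectivization ℂ C3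

/-- The Fubini-Study distance on `ℙ²` (the geodesic distance of the Fubini-Study metric):
`d([u],[v]) = arccos (|⟨u,v⟩| / (‖u‖ ‖v‖))`. -/
noncomputable def fsDist (x y : P2) : ℝ :=
  Real.arccos (‖inner ℂ x.rep y.rep‖ / (‖x.rep‖ * ‖y.rep‖))

/-- The open polydisk `Δⁿ(ρ)` of polyradius `ρ` centred at `0` in `ℂⁿ`. -/
def polydisk (n : ℕ) (ρ : ℝ) : Set (Fin n → ℂ) := {z | ∀ i, ‖z i‖ < ρ}

/-- The unit polydisk `Δⁿ⁺¹` in `ℂⁿ⁺¹ = ℂⁿ × ℂ`. -/
def unitPolydisk (n : ℕ) : Set ((Fin n → ℂ) × ℂ) := {p | p.1 ∈ polydisk n 1 ∧ ‖p.2‖ < 1}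

/-- The Hartogs figure
`H_n¹(r) = [Δⁿ(1 - r) × Δ¹] ∪ [Δⁿ × A¹(r,1)]` in `ℂⁿ⁺¹ = ℂⁿ × ℂ`. -/
def hartogsFigure (n : ℕ) (r : ℝ) : Set ((Fin n → ℂ) × ℂ) :=
  {p | (p.1 ∈ polydisk n (1 - r) ∧ ‖p.2‖ < 1) ∨ (p.1 ∈ polydisk n 1 ∧ r < ‖p.2‖ ∧ ‖p.2‖ < 1)}

/-- `f` is a holomorphic map from the open set `U` to `ℙ²`: near every point of `U` it is given by
homogeneous coordinates which are holomorphic functions without common zero. -/
def HolomorphicMapOn {n : ℕ} (f : (Fin n → ℂ) × ℂ → P2) (U : Set ((Fin n → ℂ) × ℂ)) : Prop :=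
  ∀ p ∈ U, ∃ V : Set ((Fin n → ℂ) × ℂ), IsOpen V ∧ p ∈ V ∧ ∃ F : (Fin n → ℂ) × ℂ → C3,
    DifferentiableOn ℂ F V ∧ ∀ z ∈ V ∩ U, ∃ h : F z ≠ 0, f z = Projectivization.mk ℂ (F z) h

/-- The family `𝓕` is equicontinuous on `U` (with respect to the Fubini-Study distance). -/
def EquicontinuousFamilyOn {n : ℕ} (𝓕 : Set ((Fin n → ℂ) × ℂ → P2))
    (U : Set ((Fin n → ℂ) × ℂ)) : Prop :=
  ∀ p ∈ U, ∀ ε > 0, ∃ δ > 0, ∀ f ∈ 𝓕, ∀ z ∈ U, ‖z - p‖ < δ → fsDist (f z) (f p) < ε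

lemma fsDist_mk (u v : C3) (hu : u ≠ 0) (hv : v ≠ 0) :
    fsDist (Projectivization.mk ℂ u hu) (Projectivization.mk ℂ v hv) =
      Real.arccos (‖inner ℂ u v‖ / (‖u‖ * ‖v‖)) := by
  obtain ⟨a, ha⟩ := Projectivization.exists_smul_eq_mk_rep ℂ u hu
  obtain ⟨b, hb⟩ := Projectivization.exists_smul_eq_mk_rep ℂ v hv
  unfold fsDist
  rw [← ha, ← hb]
  simp only [Units.smul_def, inner_smul_left, inner_smul_right, norm_mul, norm_smul,
    RCLike.norm_conj]
  have h1 : ‖(a : ℂ)‖ ≠ 0 := by simp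
  have h2 : ‖(b : ℂ)‖ ≠ 0 := by simp
  have h3 : ‖u‖ ≠ 0 := by simpa using hu
  have h4 : ‖v‖ ≠ 0 := by simpa using hv
  congr 1
  field_simp

/-- The homogeneous coordinates of the `k`-th map. -/
noncomputable def coords (n : ℕ) (hn : 0 < n) (a : ℝ) (k : ℕ) (p : (Fin n → ℂ) × ℂ) : C3 :=
  !₂[p.1 ⟨0, hn⟩ - (a : ℂ), p.2, (1 / ((k : ℂ) + 1))]

lemma coords_ne (n : ℕ) (hn : 0 < n) (a : ℝ) (k : ℕ) (p : (Fin n → ℂ) × ℂ) :
    coords n hn a k p ≠ 0 := by
  intro h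
  have h2 : coords n hn a k p 2 = 0 := by rw [h]; rfl
  have h3 : coords n hn a k p 2 = 1 / ((k : ℂ) + 1) := rfl
  rw [h3] at h2
  have h4 : ((k : ℂ) + 1) ≠ 0 := by exact_mod_cast Nat.succ_ne_zero k
  exact one_div_ne_zero h4 h2

/-- The `k`-th map. -/
noncomputable def map (n : ℕ) (hn : 0 < n) (a : ℝ) (k : ℕ) (p : (Fin n → ℂ) × ℂ) : P2 :=
  Projectivization.mk ℂ (coords n hn a k p) (coords_ne n hn a k p)

lemma map_holo (n : ℕ) (hn : 0 < n) (a : ℝ) (k : ℕ) (U : Set ((Fin n → ℂ) × ℂ)) :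
    HolomorphicMapOn (map n hn a k) U := by
  intro p _
  refine ⟨univ, isOpen_univ, mem_univ p, coords n hn a k, ?_, fun z _ => ⟨coords_ne n hn a k z, rfl⟩⟩
  rw [differentiableOn_univ]
  unfold coords
  rw [differentiable_euclidean]
  intro i
  fin_cases i
  · simp only [Fin.zero_eta, Fin.isValue]
    show Differentiable ℂ fun x : (Fin n → ℂ) × ℂ => x.1 ⟨0, hn⟩ - (a : ℂ)
    fun_prop
  · show Differentiable ℂ fun x : (Fin n → ℂ) × ℂ => x.2
    fun_prop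
  · show Differentiable ℂ fun _ : (Fin n → ℂ) × ℂ => (1 / ((k : ℂ) + 1))
    fun_prop

lemma arccos_small (ε : ℝ) (hε : 0 < ε) : ∃ η > 0, ∀ t : ℝ, 1 - η < t → Real.arccos t < ε := by
  have h1 : Tendsto Real.arccos (𝓝 1) (𝓝 0) := by
    have := Real.continuous_arccos.tendsto 1
    rwa [Real.arccos_one] at this
  have h2 : ∀ᶠ t in 𝓝 (1 : ℝ), Real.arccos t < ε := h1.eventually (gt_mem_nhds hε)
  rw [Metric.eventually_nhds_iff] at h2
  obtain ⟨η, hη, h3⟩ := h2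
  refine ⟨η, hη, fun t ht => ?_⟩
  by_cases h4 : t < 1 + η
  · apply h3
    rw [Real.dist_eq, abs_lt]
    constructor <;> linarith
  · rw [Real.arccos_of_one_le (by linarith)]
    exact hε

lemma angle_close (u v : C3) (m δ : ℝ) (hm : 0 < m) (hv : m ≤ ‖v‖) (hd : ‖u - v‖ ≤ δ) (hδ : δ < m) :
    (m - δ) / (m + δ) ≤ ‖inner ℂ u v‖ / (‖u‖ * ‖v‖) := by
  have hδ0 : 0 ≤ δ := (norm_nonneg _).trans hd
  have h1 : ‖v‖ ^ 2 - ‖v‖ * ‖u - v‖ ≤ ‖inner ℂ u v‖ := by
    have h2 : inner ℂ u v = inner ℂ v v + inner ℂ (u - v) v := by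
      rw [inner_sub_left]
      ring
    rw [h2]
    have h3 := norm_sub_le_norm_add (inner ℂ v v) (inner ℂ (u - v) v)
    have h4 : ‖inner ℂ v v‖ = ‖v‖ ^ 2 := by
      rw [inner_self_eq_norm_sq_to_K]
      simp
    have h5 := norm_inner_le_norm (𝕜 := ℂ) (u - v) v
    rw [h4] at h3
    nlinarith
  have hv0 : 0 < ‖v‖ := hm.trans_le hv
  have hu : ‖u‖ ≤ ‖v‖ + δ := by
    have : ‖u‖ = ‖v + (u - v)‖ := by congr 1; abel
    rw [this]
    exact (norm_add_le _ _).trans (by linarith)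
  have hu0 : 0 < ‖u‖ := by
    have : ‖v‖ - ‖u - v‖ ≤ ‖u‖ := by
      have := norm_sub_norm_le v (v - u)
      rw [sub_sub_cancel, norm_sub_rev v u] at this
      exact this
    linarith
  have h6 : ‖v‖ * (‖v‖ - δ) ≤ ‖inner ℂ u v‖ := by
    nlinarith
  rw [div_le_div_iff₀ (by linarith) (by positivity)]
  have h7 : (m - δ) * (‖v‖ + δ) ≤ (‖v‖ - δ) * (m + δ) := by nlinarith
  calc (m - δ) * (‖u‖ * ‖v‖) ≤ (m - δ) * ((‖v‖ + δ) * ‖v‖) := by
        have : 0 ≤ m - δ := by linarith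
        gcongr
    _ = ((m - δ) * (‖v‖ + δ)) * ‖v‖ := by ring
    _ ≤ ((‖v‖ - δ) * (m + δ)) * ‖v‖ := by gcongr
    _ = (‖v‖ * (‖v‖ - δ)) * (m + δ) := by ring
    _ ≤ ‖inner ℂ u v‖ * (m + δ) := by
        have : 0 ≤ m + δ := by linarith
        gcongr

lemma coords_sub (n : ℕ) (hn : 0 < n) (a : ℝ) (k : ℕ) (p q : (Fin n → ℂ) × ℂ) :
    ‖coords n hn a k q - coords n hn a k p‖ ≤ 2 * ‖q - p‖ := by
  have h0 : ‖q.1 ⟨0, hn⟩ - p.1 ⟨0, hn⟩‖ ≤ ‖q - p‖ :=
    (norm_le_pi_norm (q.1 - p.1) ⟨0, hn⟩).trans (norm_fst_le (q - p))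
  have h1 : ‖q.2 - p.2‖ ≤ ‖q - p‖ := norm_snd_le (q - p)
  rw [EuclideanSpace.norm_eq, Real.sqrt_le_left (by positivity)]
  simp only [Fin.sum_univ_three]
  have e0 : (coords n hn a k q - coords n hn a k p) 0 = q.1 ⟨0, hn⟩ - p.1 ⟨0, hn⟩ := by
    show (q.1 ⟨0, hn⟩ - (a : ℂ)) - (p.1 ⟨0, hn⟩ - (a : ℂ)) = _
    ring
  have e1 : (coords n hn a k q - coords n hn a k p) 1 = q.2 - p.2 := rfl
  have e2 : (coords n hn a k q - coords n hn a k p) 2 = 0 := by
    show (1 / ((k : ℂ) + 1)) - (1 / ((k : ℂ) + 1)) = 0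
    ring
  rw [e0, e1, e2, norm_zero]
  have := norm_nonneg (q.1 ⟨0, hn⟩ - p.1 ⟨0, hn⟩)
  have := norm_nonneg (q.2 - p.2)
  nlinarith

lemma coords_norm_ge (n : ℕ) (hn : 0 < n) (a : ℝ) (k : ℕ) (p : (Fin n → ℂ) × ℂ) :
    max ‖p.1 ⟨0, hn⟩ - (a : ℂ)‖ ‖p.2‖ ≤ ‖coords n hn a k p‖ := by
  apply max_le
  · exact PiLp.norm_apply_le (coords n hn a k p) 0
  · exact PiLp.norm_apply_le (coords n hn a k p) 1

lemma equi (n : ℕ) (hn : 0 < n) (a r : ℝ) (hr0 : 0 < r) (ha : 1 - r ≤ a) :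
    EquicontinuousFamilyOn (range (map n hn a)) (hartogsFigure n r) := by
  intro p hp ε hε
  have hm : 0 < max ‖p.1 ⟨0, hn⟩ - (a : ℂ)‖ ‖p.2‖ := by
    rcases hp with hp | hp
    · apply lt_max_of_lt_left
      rw [norm_pos_iff, sub_ne_zero]
      intro h
      have h1 := hp.1 ⟨0, hn⟩
      rw [h, Complex.norm_real, Real.norm_eq_abs] at h1
      have := le_abs_self a
      linarith
    · apply lt_max_of_lt_right
      linarith [hp.2.1]
  set m := max ‖p.1 ⟨0, hn⟩ - (a : ℂ)‖ ‖p.2‖ with hmdef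
  obtain ⟨η, hη, h1⟩ := arccos_small ε hε
  -- choose the size of the perturbation
  set δ := min (m / 4) (m * η / 8) with hδ
  have hδ0 : 0 < δ := lt_min (by positivity) (by positivity)
  refine ⟨δ, hδ0, ?_⟩
  rintro f ⟨k, rfl⟩ z _ hz
  unfold map
  rw [fsDist_mk]
  apply h1
  have h2 : ‖coords n hn a k z - coords n hn a k p‖ ≤ 2 * δ :=
    (coords_sub n hn a k p z).trans (by linarith)
  have h3 := angle_close _ _ m (2 * δ) hm (coords_norm_ge n hn a k p) h2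
    (by have := min_le_left (m / 4) (m * η / 8); linarith)
  refine lt_of_lt_of_le ?_ h3
  rw [lt_div_iff₀ (by linarith)]
  have h4 : δ ≤ m * η / 8 := min_le_right _ _
  nlinarith

lemma not_equi (n : ℕ) (hn : 0 < n) (a : ℝ) (ha0 : 0 ≤ a) (ha : a < 1) :
    ¬ EquicontinuousFamilyOn (range (map n hn a)) (unitPolydisk n) := by
  intro h
  set p : (Fin n → ℂ) × ℂ := (fun i => if i = ⟨0, hn⟩ then (a : ℂ) else 0, 0) with hp
  have hpU : p ∈ unitPolydisk n := by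
    constructor
    · intro i
      simp only [hp]
      split_ifs
      · rw [Complex.norm_real, Real.norm_eq_abs, abs_of_nonneg ha0]
        exact ha
      · simp
    · simp [hp]
  obtain ⟨δ, hδ, h1⟩ := h p hpU (Real.pi / 3) (by positivity)
  set t : ℝ := min (δ / 2) ((1 - a) / 2) with ht
  have ht0 : 0 < t := lt_min (by positivity) (by linarith)
  have ht1 : t ≤ δ / 2 := min_le_left _ _
  have ht2 : t ≤ (1 - a) / 2 := min_le_right _ _
  set z : (Fin n → ℂ) × ℂ := (fun i => if i = ⟨0, hn⟩ then ((a + t : ℝ) : ℂ) else 0, 0) with hz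
  have hzU : z ∈ unitPolydisk n := by
    constructor
    · intro i
      simp only [hz]
      split_ifs
      · rw [Complex.norm_real, Real.norm_eq_abs, abs_of_nonneg (by linarith)]
        linarith
      · simp
    · simp [hz]
  have hzp : ‖z - p‖ < δ := by
    have h2 : ‖z - p‖ ≤ t := by
      rw [Prod.norm_def]
      apply max_le
      · rw [pi_norm_le_iff_of_nonneg ht0.le]
        intro i
        show ‖z.1 i - p.1 i‖ ≤ t
        simp only [hz, hp]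
        split_ifs
        · push_cast
          rw [add_sub_cancel_left, Complex.norm_real, Real.norm_eq_abs, abs_of_pos ht0]
        · simpa using ht0.le
      · simp [hz, hp, ht0.le]
    linarith
  obtain ⟨k, hk⟩ := exists_nat_gt (2 / t)
  have h3 := h1 _ ⟨k, rfl⟩ z hzU hzp
  unfold map at h3
  rw [fsDist_mk] at h3
  have hk1 : (0 : ℝ) < (k : ℝ) + 1 := by positivity
  have hk2 : 1 / ((k : ℝ) + 1) ≤ t / 2 := by
    rw [div_le_div_iff₀ hk1 (by norm_num)]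
    have h5 : 2 < t * k := by
      rw [div_lt_iff₀ ht0] at hk
      linarith
    nlinarith
  have hcz : coords n hn a k z = !₂[(t : ℂ), 0, (1 / ((k : ℂ) + 1))] := by
    unfold coords
    simp [hz]
  have hcp : coords n hn a k p = !₂[(0 : ℂ), 0, (1 / ((k : ℂ) + 1))] := by
    unfold coords
    simp [hp]
  have hin : ‖inner ℂ (coords n hn a k z) (coords n hn a k p)‖ = (1 / ((k : ℝ) + 1)) ^ 2 := by
    rw [hcz, hcp, PiLp.inner_apply, Fin.sum_univ_three]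
    simp only [Fin.isValue, Matrix.cons_val_zero, Matrix.cons_val_one, Matrix.cons_val,
      RCLike.inner_apply, zero_mul, zero_add, norm_mul, RCLike.norm_conj]
    have : ‖(1 / ((k : ℂ) + 1))‖ = 1 / ((k : ℝ) + 1) := by
      rw [show (1 / ((k : ℂ) + 1)) = (((1 / ((k : ℝ) + 1)) : ℝ) : ℂ) by push_cast; ring,
        Complex.norm_real, Real.norm_eq_abs, abs_of_pos (by positivity)]
    rw [this]
    ring
  have hnp : ‖coords n hn a k p‖ = 1 / ((k : ℝ) + 1) := by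
    rw [hcp, EuclideanSpace.norm_eq, Fin.sum_univ_three]
    have : ‖(1 / ((k : ℂ) + 1))‖ = 1 / ((k : ℝ) + 1) := by
      rw [show (1 / ((k : ℂ) + 1)) = (((1 / ((k : ℝ) + 1)) : ℝ) : ℂ) by push_cast; ring,
        Complex.norm_real, Real.norm_eq_abs, abs_of_pos (by positivity)]
    simp only [Fin.isValue, Matrix.cons_val_zero, Matrix.cons_val_one,
      Matrix.cons_val, norm_zero, this]
    rw [show ((0 : ℝ) ^ 2 + 0 ^ 2 + (1 / ((k : ℝ) + 1)) ^ 2) = (1 / ((k : ℝ) + 1)) ^ 2 by ring]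
    exact Real.sqrt_sq (by positivity)
  have hnz : t ≤ ‖coords n hn a k z‖ := by
    have h6 := PiLp.norm_apply_le (coords n hn a k z) 0
    rw [hcz] at h6 ⊢
    simp only [Fin.isValue, Matrix.cons_val_zero] at h6
    rwa [Complex.norm_real, Real.norm_eq_abs, abs_of_pos ht0] at h6
  have h7 : ‖inner ℂ (coords n hn a k z) (coords n hn a k p)‖ /
      (‖coords n hn a k z‖ * ‖coords n hn a k p‖) ≤ 1 / 2 := by
    rw [hin, hnp]
    have h8 : 0 < 1 / ((k : ℝ) + 1) := by positivity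
    have h9 : 0 < ‖coords n hn a k z‖ := ht0.trans_le hnz
    rw [div_le_div_iff₀ (by positivity) (by norm_num)]
    nlinarith
  have h10 : Real.arccos (1 / 2) ≤ Real.arccos (‖inner ℂ (coords n hn a k z) (coords n hn a k p)‖ /
      (‖coords n hn a k z‖ * ‖coords n hn a k p‖)) := Real.arccos_le_arccos h7
  have h11 : Real.arccos (1 / 2) = Real.pi / 3 := by
    rw [← Real.cos_pi_div_three]
    exact Real.arccos_cos (by positivity) (by linarith [Real.pi_pos])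
  linarith

/-- **Equicontinuity does not propagate from the Hartogs figure.**  For every `n ≥ 1` and every
`0 < r < 1` there is a family (a sequence) of holomorphic maps `Δⁿ⁺¹ → ℙ²`, `ℙ²` being a compact
Kähler manifold, which is equicontinuous on the Hartogs figure `H_n¹(r)` but is not
equicontinuous on `Δⁿ⁺¹`. -/
theorem result (n : ℕ) (hn : 1 ≤ n) (r : ℝ) (hr0 : 0 < r) (hr1 : r < 1) :
    ∃ f : ℕ → (Fin n → ℂ) × ℂ → P2,
      (∀ k, HolomorphicMapOn (f k) (unitPolydisk n)) ∧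
      EquicontinuousFamilyOn (range f) (hartogsFigure n r) ∧
      ¬ EquicontinuousFamilyOn (range f) (unitPolydisk n) :=
  ⟨map n hn (1 - r / 2), fun k => map_holo n hn _ k _,
    equi n hn (1 - r / 2) r hr0 (by linarith), not_equi n hn (1 - r / 2) (by linarith) (by linarith)⟩

end Pool.Agent.Results.MP_7ec995_an.HartogsFigureP2
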